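import Pool.Agent.F057.Defs

open scoped ComplexConjugate ContDiff
open Complex

namespace Pool.Agent.F057

variable {V : Type*} [NormedAddCommGroup V] [NormedSpace ℂ V]
variable {ι : Type*} [Fintype ι] [DecidableEq ι]

theorem dz_mul {u w : V → ℂ} {v z : V} (hu : DifferentiableAt ℝ u z)
    (hw : DifferentiableAt ℝ w z) :
    dz (fun y => u y * w y) v z = dz u v z * w z + u z * dz w v z := by
  unfold dz
  have h : fderiv ℝ (fun y => u y * w y) z = u z • fderiv ℝ w z + w z • fderiv ℝ u z :=
    fderiv_mul hu hw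
  rw [h]
  simp only [add_apply, smul_apply, smul_eq_mul]
  ring

theorem dzbar_mul {u w : V → ℂ} {v z : V} (hu : DifferentiableAt ℝ u z)
    (hw : DifferentiableAt ℝ w z) :
    dzbar (fun y => u y * w y) v z = dzbar u v z * w z + u z * dzbar w v z := by
  unfold dzbar
  have h : fderiv ℝ (fun y => u y * w y) z = u z • fderiv ℝ w z + w z • fderiv ℝ u z :=
    fderiv_mul hu hw
  rw [h]
  simp only [add_apply, smul_apply, smul_eq_mul]
  ring

theorem dz_add {u w : V → ℂ} {v z : V} (hu : DifferentiableAt ℝ u z)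
    (hw : DifferentiableAt ℝ w z) :
    dz (fun y => u y + w y) v z = dz u v z + dz w v z := by
  unfold dz
  have h : fderiv ℝ (fun y => u y + w y) z = fderiv ℝ u z + fderiv ℝ w z :=
    fderiv_add hu hw
  rw [h]
  simp only [add_apply]
  ring

theorem dz_congr {u w : V → ℂ} {v z : V} (h : u =ᶠ[nhds z] w) : dz u v z = dz w v z := by
  unfold dz
  rw [h.fderiv_eq]

theorem differentiableAt_dzbar {u : V → ℂ} {v z : V} (hu : ContDiffAt ℝ 2 u z) :
    DifferentiableAt ℝ (fun y => dzbar u v y) z := by
  have h1 : ContDiffAt ℝ 1 (fderiv ℝ u) z := hu.fderiv_right (m := 1) (by norm_num)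
  have h2 : DifferentiableAt ℝ (fderiv ℝ u) z := h1.differentiableAt (by norm_num)
  unfold dzbar
  have h3 : DifferentiableAt ℝ (fun y => fderiv ℝ u y v) z := h2.clm_apply (differentiableAt_const _)
  have h4 : DifferentiableAt ℝ (fun y => fderiv ℝ u y (I • v)) z :=
    h2.clm_apply (differentiableAt_const _)
  have h5 : DifferentiableAt ℝ (fun y => I * fderiv ℝ u y (I • v)) z := h4.const_mul I
  have h6 : DifferentiableAt ℝ (fun y => fderiv ℝ u y v + I * fderiv ℝ u y (I • v)) z :=
    h3.add h5
  simp only [div_eq_mul_inv]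
  exact h6.mul_const _

/-- second derivative of a product -/
theorem dz_dzbar_mul {u w : V → ℂ} {v z : V} (hu : ContDiffAt ℝ 2 u z)
    (hw : ContDiffAt ℝ 2 w z) :
    dz (fun y => dzbar (fun x => u x * w x) v y) v z =
      dz (fun y => dzbar u v y) v z * w z + dzbar u v z * dz w v z
        + dz u v z * dzbar w v z + u z * dz (fun y => dzbar w v y) v z := by
  have hu1 : ∀ᶠ y in nhds z, DifferentiableAt ℝ u y := by
    have := hu.eventually (by norm_num)
    exact this.mono fun y hy => hy.differentiableAt (by norm_num)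
  have hw1 : ∀ᶠ y in nhds z, DifferentiableAt ℝ w y := by
    have := hw.eventually (by norm_num)
    exact this.mono fun y hy => hy.differentiableAt (by norm_num)
  have h1 : (fun y => dzbar (fun x => u x * w x) v y) =ᶠ[nhds z]
      fun y => dzbar u v y * w y + u y * dzbar w v y := by
    filter_upwards [hu1, hw1] with y h1 h2
    exact dzbar_mul h1 h2
  rw [dz_congr h1]
  have du := hu1.self_of_nhds
  have dw := hw1.self_of_nhds
  have ddu := differentiableAt_dzbar (v := v) hu
  have ddw := differentiableAt_dzbar (v := v) hw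
  have e1 : DifferentiableAt ℝ (fun y => dzbar u v y * w y) z := ddu.mul dw
  have e2 : DifferentiableAt ℝ (fun y => u y * dzbar w v y) z := du.mul ddw
  rw [dz_add e1 e2, dz_mul ddu dw, dz_mul du ddw]
  ring

variable {κ μ : Type*} [Fintype κ] [DecidableEq κ] [Fintype μ] [DecidableEq μ]

/-- curvature of a tensor product -/
theorem curv_mul (e : κ ≃ ι × μ) {H : V → Matrix ι ι ℂ} {K : V → Matrix μ μ ℂ}
    {G : V → Matrix κ κ ℂ} (hG : ∀ w x y, G w x y = H w (e x).1 (e y).1 * K w (e x).2 (e y).2)
    {z v : V} (hH : ∀ i j, ContDiffAt ℝ 2 (fun w => H w i j) z)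
    (hK : ∀ i j, ContDiffAt ℝ 2 (fun w => K w i j) z)
    (uH : IsUnit (H z)) (uK : IsUnit (K z)) (x y : κ) :
    curv G z v x y = curv H z v (e x).1 (e y).1 * K z (e x).2 (e y).2
      + H z (e x).1 (e y).1 * curv K z v (e x).2 (e y).2 := by
  set A := Matrix.of fun i j => dzbar (fun w => H w i j) v z with hA
  set B := Matrix.of fun i j => dz (fun w => H w i j) v z with hB
  set C := Matrix.of fun i j => dzbar (fun w => K w i j) v z with hC
  set D := Matrix.of fun i j => dz (fun w => K w i j) v z with hD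
  have dH : ∀ i j, DifferentiableAt ℝ (fun w => H w i j) z := fun i j =>
    (hH i j).differentiableAt (by norm_num)
  have dK : ∀ i j, DifferentiableAt ℝ (fun w => K w i j) z := fun i j =>
    (hK i j).differentiableAt (by norm_num)
  have hGz : G z = (Matrix.kronecker (H z) (K z)).submatrix e e := by
    ext a b
    simp [hG, Matrix.kroneckerMap_apply]
  have hGb : (Matrix.of fun i j => dzbar (fun w => G w i j) v z) =
      (Matrix.kronecker A (K z) + Matrix.kronecker (H z) C).submatrix e e := by
    ext a b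
    have : (fun w => G w a b) = fun w => H w (e a).1 (e b).1 * K w (e a).2 (e b).2 := by
      funext w; exact hG w a b
    simp only [Matrix.of_apply, this, Matrix.submatrix_apply, Matrix.add_apply,
      Matrix.kroneckerMap_apply, hA, hC, Matrix.kronecker]
    rw [dzbar_mul (dH _ _) (dK _ _)]
  have hGd : (Matrix.of fun i j => dz (fun w => G w i j) v z) =
      (Matrix.kronecker B (K z) + Matrix.kronecker (H z) D).submatrix e e := by
    ext a b
    have : (fun w => G w a b) = fun w => H w (e a).1 (e b).1 * K w (e a).2 (e b).2 := by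
      funext w; exact hG w a b
    simp only [Matrix.of_apply, this, Matrix.submatrix_apply, Matrix.add_apply,
      Matrix.kroneckerMap_apply, hB, hD, Matrix.kronecker]
    rw [dz_mul (dH _ _) (dK _ _)]
  have hinv : (G z)⁻¹ = (Matrix.kronecker (H z)⁻¹ (K z)⁻¹).submatrix e e := by
    rw [hGz, Matrix.inv_submatrix_equiv]
    rw [Matrix.kronecker, Matrix.inv_kronecker]
  have hprod : (Matrix.of fun i j => dzbar (fun w => G w i j) v z) * (G z)⁻¹ *
      (Matrix.of fun i j => dz (fun w => G w i j) v z) =
      (Matrix.kronecker (A * (H z)⁻¹ * B) (K z) + Matrix.kronecker A D + Matrix.kronecker B C +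
        Matrix.kronecker (H z) (C * (K z)⁻¹ * D)).submatrix e e := by
    rw [hGb, hinv, hGd, Matrix.submatrix_mul_equiv, Matrix.submatrix_mul_equiv]
    congr 1
    have h1 : H z * (H z)⁻¹ = 1 := Matrix.mul_nonsing_inv _ ((Matrix.isUnit_iff_isUnit_det _).1 uH)
    have h2 : (H z)⁻¹ * H z = 1 := Matrix.nonsing_inv_mul _ ((Matrix.isUnit_iff_isUnit_det _).1 uH)
    have h3 : K z * (K z)⁻¹ = 1 := Matrix.mul_nonsing_inv _ ((Matrix.isUnit_iff_isUnit_det _).1 uK)
    have h4 : (K z)⁻¹ * K z = 1 := Matrix.nonsing_inv_mul _ ((Matrix.isUnit_iff_isUnit_det _).1 uK)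
    simp only [Matrix.kronecker, add_mul, mul_add, ← Matrix.mul_kronecker_mul]
    simp only [h1, h3, Matrix.one_mul, Matrix.mul_one, Matrix.mul_assoc, h2, h4]
    abel
  unfold curv
  rw [hprod]
  have hs : dz (fun w => dzbar (fun w' => G w' x y) v w) v z =
      dz (fun w => dzbar (fun w' => H w' (e x).1 (e y).1) v w) v z * K z (e x).2 (e y).2
      + A (e x).1 (e y).1 * D (e x).2 (e y).2 + B (e x).1 (e y).1 * C (e x).2 (e y).2
      + H z (e x).1 (e y).1 * dz (fun w => dzbar (fun w' => K w' (e x).2 (e y).2) v w) v z := by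
    have : (fun w => G w x y) = fun w => H w (e x).1 (e y).1 * K w (e x).2 (e y).2 := by
      funext w; exact hG w x y
    rw [this, dz_dzbar_mul (hH _ _) (hK _ _)]
    simp [hA, hB, hC, hD]
  simp only [Matrix.sub_apply, Matrix.submatrix_apply, Matrix.add_apply, Matrix.of_apply, hs,
    Matrix.kronecker, Matrix.kroneckerMap_apply]
  ring

end Pool.Agent.F057
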