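import Mathlib

/-!
Definitions: Hermitian metrics on holomorphic vector bundles over complex manifolds, Chern
curvature, tensor powers, RC-positivity and positivity of the mean curvature.
-/

open scoped ComplexConjugate Manifold ContDiff Bundle
open Complex

namespace Pool.Agent.F057

section Local

variable {V : Type*} [NormedAddCommGroup V] [NormedSpace ℂ V]
variable {ι : Type*} [Fintype ι] [DecidableEq ι]

/-- The derivative `∂_v u` at `z` of a complex valued function `u` on `V`. -/
noncomputable def dz (u : V → ℂ) (v z : V) : ℂ :=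
  (fderiv ℝ u z v - I * fderiv ℝ u z (I • v)) / 2

/-- The derivative `∂_{v̄} u` at `z` of a complex valued function `u` on `V`. -/
noncomputable def dzbar (u : V → ℂ) (v z : V) : ℂ :=
  (fderiv ℝ u z v + I * fderiv ℝ u z (I • v)) / 2

/-- The Chern curvature at `z` in the direction `(v, v̄)` of the metric with Gram matrix `H` in a
holomorphic frame, `H i j = ⟨e i, e j⟩` being conjugate linear in the first entry:
the matrix `(∂_{v̄} H) H⁻¹ (∂_v H) - ∂_v ∂_{v̄} H`. -/
noncomputable def curv (H : V → Matrix ι ι ℂ) (z v : V) : Matrix ι ι ℂ :=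
  (Matrix.of fun i j => dzbar (fun w => H w i j) v z) * (H z)⁻¹ *
      (Matrix.of fun i j => dz (fun w => H w i j) v z)
    - Matrix.of fun i j => dz (fun w => dzbar (fun w' => H w' i j) v w) v z

/-- The Gram matrix of the `p`-th tensor power of a metric in the frame
`e (I 0) ⊗ ... ⊗ e (I (p-1))`, `I : Fin p → ι`. -/
def tpow (H : V → Matrix ι ι ℂ) (p : ℕ) (z : V) : Matrix (Fin p → ι) (Fin p → ι) ℂ :=
  Matrix.of fun a b => ∏ k, H z (a k) (b k)

/-- The sesquilinear form with matrix `M`. -/
noncomputable def sq {κ : Type*} [Fintype κ] (M : Matrix κ κ ℂ) (x y : κ → ℂ) : ℂ :=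
  ∑ a, ∑ b, conj (x a) * M a b * y b

end Local

section Global

variable {V : Type*} [NormedAddCommGroup V] [NormedSpace ℂ V]
  {X : Type*} [TopologicalSpace X] [ChartedSpace V X]
  (F : Type*) [NormedAddCommGroup F] [NormedSpace ℂ F] [FiniteDimensional ℂ F]
  (E : X → Type*) [∀ x, AddCommGroup (E x)] [∀ x, Module ℂ (E x)]
  [∀ x, TopologicalSpace (E x)] [TopologicalSpace (Bundle.TotalSpace F E)]
  [FiberBundle F E] [VectorBundle ℂ F E]

/-- The Gram matrix near `q` of a family `h` of sesquilinear forms on the fibres of `E`, as a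
function of the coordinate `z` of the chart of `X` at `q`, in the frame that the trivialisation
of `E` at `q` makes out of a basis of `F`. -/
noncomputable def gram (h : ∀ x, E x →ₗ⋆[ℂ] E x →ₗ[ℂ] ℂ) (q : X) (z : V) :
    Matrix (Fin (Module.finrank ℂ F)) (Fin (Module.finrank ℂ F)) ℂ :=
  Matrix.of fun i j =>
    h ((extChartAt 𝓘(ℂ, V) q).symm z)
      ((trivializationAt F E q).symm ((extChartAt 𝓘(ℂ, V) q).symm z) (Module.finBasis ℂ F i))
      ((trivializationAt F E q).symm ((extChartAt 𝓘(ℂ, V) q).symm z) (Module.finBasis ℂ F j))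

variable (V) in
/-- A smooth Hermitian metric on the bundle `E`. -/
structure HermMetric where
  /-- the form on the fibre at `x`, conjugate linear in the first entry -/
  form : ∀ x, E x →ₗ⋆[ℂ] E x →ₗ[ℂ] ℂ
  symm : ∀ x a b, form x b a = conj (form x a b)
  pos : ∀ x a, a ≠ 0 → 0 < (form x a a).re
  smooth : ∀ (q : X) (i j : Fin (Module.finrank ℂ F)),
    ContDiffOn ℝ ∞ (fun z : V => gram F E form q z i j)
      ((extChartAt 𝓘(ℂ, V) q).target ∩
        (extChartAt 𝓘(ℂ, V) q).symm ⁻¹' (trivializationAt F E q).baseSet)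

variable {F E}

/-- The curvature matrix at `q` of the metric `h^⊗p` on `E^⊗p` in the direction `(v, v̄)`,
`v ∈ T_q X = V`. -/
noncomputable def curvature (h : HermMetric V F E) (p : ℕ) (q : X) (v : V) :
    Matrix (Fin p → Fin (Module.finrank ℂ F)) (Fin p → Fin (Module.finrank ℂ F)) ℂ :=
  curv (tpow (gram F E h.form q) p) (extChartAt 𝓘(ℂ, V) q q) v

/-- `(E^⊗p, h^⊗p)` is RC-positive at `q`: for each nonzero tensor `a` in the fibre at `q` there
is a `v ∈ T_q X` with `R(v, v̄, a, ā) > 0`. -/
def RCPositiveAt (h : HermMetric V F E) (p : ℕ) (q : X) : Prop :=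
  ∀ a : (Fin p → Fin (Module.finrank ℂ F)) → ℂ, a ≠ 0 →
    ∃ v : V, 0 < (sq (curvature h p q v) a a).re

/-- The same condition for nonzero symmetric tensors only: `(Sym^p E, Sym^p h)` is RC-positive at
`q`. -/
def RCPositiveSymAt (h : HermMetric V F E) (p : ℕ) (q : X) : Prop :=
  ∀ a : (Fin p → Fin (Module.finrank ℂ F)) → ℂ, a ≠ 0 →
    (∀ (σ : Equiv.Perm (Fin p)) (J : Fin p → Fin (Module.finrank ℂ F)), a (J ∘ σ) = a J) →
    ∃ v : V, 0 < (sq (curvature h p q v) a a).re

/-- The mean curvature of `(E, h)` at `q` is positive for some inner product on `T_q X`: there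
are finitely many vectors `v j` spanning `T_q X` with `∑ R(v j, v̄ j, a, ā) > 0` for each
nonzero `a`. -/
def MeanPositiveAt (h : HermMetric V F E) (q : X) : Prop :=
  ∃ (m : ℕ) (v : Fin m → V), Submodule.span ℂ (Set.range v) = ⊤ ∧
    ∀ a : Fin (Module.finrank ℂ F) → ℂ, a ≠ 0 →
      0 < ∑ j, (sq (curv (gram F E h.form q) (extChartAt 𝓘(ℂ, V) q q) (v j)) a a).re

end Global

end Pool.Agent.F057
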