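import Pool.Agent.F057.Sep

open scoped ComplexConjugate ContDiff ComplexOrder MatrixOrder
set_option linter.unusedSectionVars false
open Complex Matrix

namespace Pool.Agent.F057

variable {ι : Type*} [Fintype ι] [DecidableEq ι]

theorem sq_conj (M : Matrix ι ι ℂ) (x y : ι → ℂ) : conj (sq M x y) = sq Mᴴ y x := by
  unfold sq
  rw [map_sum, Finset.sum_congr rfl fun a _ => map_sum _ _ _, Finset.sum_comm]
  refine Finset.sum_congr rfl fun a _ => Finset.sum_congr rfl fun b _ => ?_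
  simp only [map_mul, Complex.conj_conj, Matrix.conjTranspose_apply, Complex.star_def]
  ring

theorem trace_vecMulVec (x : ι → ℂ) (ρ : Matrix ι ι ℂ) :
    ((Matrix.vecMulVec x (star x)) * ρ).trace = sq ρ x x := by
  unfold sq
  simp only [Matrix.trace, Matrix.diag, Matrix.mul_apply, Matrix.vecMulVec_apply, Pi.star_apply]
  rw [Finset.sum_comm]
  refine Finset.sum_congr rfl fun a _ => Finset.sum_congr rfl fun b _ => ?_
  simp only [Complex.star_def]
  ring

theorem sq_vecMulVec (x y : ι → ℂ) :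
    sq (Matrix.vecMulVec x (star x)) y y = (Complex.normSq (∑ a, conj (y a) * x a) : ℂ) := by
  rw [Complex.normSq_eq_conj_mul_self]
  unfold sq
  simp only [Matrix.vecMulVec_apply, Pi.star_apply]
  rw [map_sum, mul_comm, Finset.sum_mul]
  refine Finset.sum_congr rfl fun a _ => ?_
  rw [Finset.mul_sum]
  refine Finset.sum_congr rfl fun b _ => ?_
  simp only [Complex.star_def, map_mul, Complex.conj_conj]
  ring

theorem functional_skew {g : Matrix ι ι ℂ →ₗ[ℝ] ℝ} (hg : ∀ M ∈ SS ι, 0 < g M)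
    {N : Matrix ι ι ℂ} (hN : Nᴴ = -N) : g N = 0 := by
  have h0 : ∀ x, (sq N x x).re = 0 := by
    intro x
    have h1 := congrArg Complex.re (sq_conj N x x)
    rw [hN, Complex.conj_re] at h1
    have h2 : sq (-N) x x = - sq N x x := by
      have := sq_smul (-1) N x x
      simpa using this
    rw [h2, Complex.neg_re] at h1
    linarith
  have h : ∀ t : ℝ, 0 < g 1 + t * g N := by
    intro t
    have h1 : (1 : Matrix ι ι ℂ) + t • N ∈ SS ι := by
      intro x hx
      have e2 : t • N = (t : ℂ) • N := by ext i j; simp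
      rw [sq_add, e2, sq_smul, Complex.add_re, Complex.re_ofReal_mul, h0, mul_zero, add_zero]
      exact one_mem_SS x hx
    have := hg _ h1
    rwa [map_add, map_smul, smul_eq_mul] at this
  by_contra hne
  have h1 := h (-(g 1 + 1) / g N)
  rw [div_mul_cancel₀ _ hne] at h1
  linarith

/-- A functional which is positive on positive matrices is a weighted sum of values of the
quadratic form at an `H`-orthonormal basis. -/
theorem diag_functional {g : Matrix ι ι ℂ →ₗ[ℝ] ℝ} (hg : ∀ M ∈ SS ι, 0 < g M)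
    {H : Matrix ι ι ℂ} (hH : H.PosDef) :
    ∃ (E : Matrix ι ι ℂ) (d : ι → ℝ), (∀ i, 0 ≤ d i) ∧
      (∀ i j, sq H (fun a => E a i) (fun a => E a j) = if i = j then 1 else 0) ∧
      ∀ M, g M = ∑ i, d i * (sq M (fun a => E a i) (fun a => E a i)).re := by
  obtain ⟨ρ, hρ⟩ := rep g
  set R : Matrix ι ι ℂ := (1 / 2 : ℂ) • (ρ + ρᴴ) with hR
  have hRh : Rᴴ = R := by
    rw [hR, Matrix.conjTranspose_smul, Matrix.conjTranspose_add, Matrix.conjTranspose_conjTranspose,
      add_comm ρᴴ ρ]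
    congr 1
    simp
  have hgM : ∀ M, g M = g Mᴴ := by
    intro M
    have h1 : g (M - Mᴴ) = 0 := functional_skew hg (by
      rw [Matrix.conjTranspose_sub, Matrix.conjTranspose_conjTranspose]; abel)
    rw [map_sub] at h1
    linarith
  have hgR : ∀ M, g M = ((M * R).trace).re := by
    intro M
    have h1 := hρ M
    have h2 := hρ Mᴴ
    rw [← hgM] at h2
    have h3 : ((Mᴴ * ρ).trace).re = ((M * ρᴴ).trace).re := by
      have : (Mᴴ * ρ) = (ρᴴ * M)ᴴ := by
        rw [Matrix.conjTranspose_mul, Matrix.conjTranspose_conjTranspose]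
      rw [this, Matrix.trace_conjTranspose, Complex.star_def, Complex.conj_re,
        Matrix.trace_mul_comm]
    rw [h3] at h2
    rw [hR, Matrix.mul_smul, Matrix.trace_smul, Matrix.mul_add, Matrix.trace_add, smul_eq_mul]
    have : ((1 / 2 : ℂ) * ((M * ρ).trace + (M * ρᴴ).trace)).re =
        1 / 2 * (((M * ρ).trace).re + ((M * ρᴴ).trace).re) := by
      have e : (1 / 2 : ℂ) = ((1 / 2 : ℝ) : ℂ) := by push_cast; rfl
      rw [e, Complex.re_ofReal_mul, Complex.add_re]
    rw [this, ← h1, ← h2]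
    ring
  have hRp : R.PosSemidef := by
    refine Matrix.PosSemidef.of_dotProduct_mulVec_nonneg hRh fun x => ?_
    have him : (star x ⬝ᵥ (R *ᵥ x)).im = 0 :=
      Matrix.IsHermitian.im_star_dotProduct_mulVec_self hRh x
    rw [Complex.nonneg_iff]
    refine ⟨?_, him.symm⟩
    have h1 : g (Matrix.vecMulVec x (star x)) = (star x ⬝ᵥ (R *ᵥ x)).re := by
      rw [hgR, trace_vecMulVec, sq_eq]
    rw [← h1]
    have h2 : ∀ t : ℝ, 0 < t → 0 < g (Matrix.vecMulVec x (star x)) + t * g 1 := by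
      intro t ht
      have h3 : Matrix.vecMulVec x (star x) + t • (1 : Matrix ι ι ℂ) ∈ SS ι := by
        intro y hy
        have e2 : t • (1 : Matrix ι ι ℂ) = (t : ℂ) • (1 : Matrix ι ι ℂ) := by ext i j; simp
        rw [sq_add, e2, sq_smul, Complex.add_re, Complex.re_ofReal_mul, sq_vecMulVec,
          Complex.ofReal_re]
        have := mul_pos ht (one_mem_SS y hy)
        have := Complex.normSq_nonneg (∑ a, conj (y a) * x a)
        linarith
      have := hg _ h3
      rwa [map_add, map_smul, smul_eq_mul] at this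
    by_contra hc
    push Not at hc
    have h4 : 0 < g 1 := hg _ one_mem_SS
    have h5 := h2 (-(g (Matrix.vecMulVec x (star x))) / g 1) (div_pos (by linarith) h4)
    rw [div_mul_cancel₀ _ h4.ne'] at h5
    linarith
  -- factor `H = Bᴴ B`
  obtain ⟨B, hB⟩ := CStarAlgebra.nonneg_iff_eq_star_mul_self.mp hH.posSemidef.nonneg
  have hBH : H = Bᴴ * B := hB
  have hdet : IsUnit B.det := by
    have h1 := (Matrix.isUnit_iff_isUnit_det _).1 hH.isUnit
    rw [hBH, Matrix.det_mul] at h1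
    exact isUnit_of_mul_isUnit_right h1
  obtain ⟨U, d, hUU, hd, hspec⟩ : ∃ (U : Matrix ι ι ℂ) (d : ι → ℝ), Uᴴ * U = 1 ∧ (∀ i, 0 ≤ d i) ∧
      B * R * Bᴴ = U * Matrix.diagonal (fun i => ((d i : ℝ) : ℂ)) * Uᴴ := by
    have hP : (B * R * Bᴴ).PosSemidef := hRp.mul_mul_conjTranspose_same B
    have hPh := hP.isHermitian
    refine ⟨(hPh.eigenvectorUnitary : Matrix ι ι ℂ), hPh.eigenvalues, ?_,
      fun i => hP.eigenvalues_nonneg i, ?_⟩
    · have := (Matrix.mem_unitaryGroup_iff').1 hPh.eigenvectorUnitary.2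
      rwa [Matrix.star_eq_conjTranspose] at this
    · have := hPh.spectral_theorem
      rw [Unitary.conjStarAlgAut_apply] at this
      exact this
  refine ⟨B⁻¹ * U, d, hd, ?_, ?_⟩
  · intro i j
    have h1 : (B⁻¹ * U)ᴴ * H * (B⁻¹ * U) = 1 := by
      have e1 : B * B⁻¹ = 1 := Matrix.mul_nonsing_inv _ hdet
      have e2 : (B⁻¹)ᴴ * Bᴴ = 1 := by rw [← Matrix.conjTranspose_mul, e1, Matrix.conjTranspose_one]
      rw [hBH, Matrix.conjTranspose_mul]
      calc Uᴴ * (B⁻¹)ᴴ * (Bᴴ * B) * (B⁻¹ * U) = Uᴴ * ((B⁻¹)ᴴ * Bᴴ) * (B * B⁻¹) * U := by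
            simp only [Matrix.mul_assoc]
        _ = 1 := by rw [e1, e2, Matrix.mul_one, Matrix.mul_one, hUU]
    have h2 := congrFun (congrFun h1 i) j
    rw [Matrix.one_apply] at h2
    rw [← h2]
    simp only [sq, Matrix.mul_apply (M := (B⁻¹ * U)ᴴ * H), Matrix.mul_apply (M := (B⁻¹ * U)ᴴ),
      Matrix.conjTranspose_apply, Complex.star_def, Finset.sum_mul]
    rw [Finset.sum_comm]
  · intro M
    have h1 : R = (B⁻¹ * U) * Matrix.diagonal (fun i => ((d i : ℝ) : ℂ)) * (B⁻¹ * U)ᴴ := by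
      have e1 : B⁻¹ * B = 1 := Matrix.nonsing_inv_mul _ hdet
      have e2 : Bᴴ * (B⁻¹)ᴴ = 1 := by rw [← Matrix.conjTranspose_mul, e1, Matrix.conjTranspose_one]
      rw [Matrix.conjTranspose_mul]
      calc R = (B⁻¹ * B) * R * (Bᴴ * (B⁻¹)ᴴ) := by rw [e1, e2, Matrix.one_mul, Matrix.mul_one]
        _ = B⁻¹ * (B * R * Bᴴ) * (B⁻¹)ᴴ := by simp only [Matrix.mul_assoc]
        _ = _ := by rw [hspec]; simp only [Matrix.mul_assoc]
    rw [hgR]
    conv_lhs => rw [h1]
    have h2 : (M * (B⁻¹ * U * Matrix.diagonal (fun i => ((d i : ℝ) : ℂ)) *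
        (B⁻¹ * U)ᴴ)).trace = (((B⁻¹ * U)ᴴ * M * (B⁻¹ * U)) *
        Matrix.diagonal (fun i => ((d i : ℝ) : ℂ))).trace := by
      rw [← Matrix.mul_assoc, Matrix.trace_mul_comm]
      simp only [Matrix.mul_assoc]
    rw [h2]
    simp only [Matrix.trace, Matrix.diag, Matrix.mul_diagonal, Complex.re_sum]
    refine Finset.sum_congr rfl fun i _ => ?_
    have h3 : ((B⁻¹ * U)ᴴ * M * (B⁻¹ * U)) i i =
        sq M (fun a => (B⁻¹ * U) a i) (fun a => (B⁻¹ * U) a i) := by
      simp only [sq, Matrix.mul_apply (M := (B⁻¹ * U)ᴴ * M), Matrix.mul_apply (M := (B⁻¹ * U)ᴴ),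
        Matrix.conjTranspose_apply, Complex.star_def, Finset.sum_mul]
      rw [Finset.sum_comm]
    rw [h3, mul_comm]
    exact Complex.re_ofReal_mul _ _

end Pool.Agent.F057
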