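import Pool.Agent.F057.Diag

open scoped ComplexConjugate ContDiff ComplexOrder
set_option linter.unusedSectionVars false
open Complex Matrix

namespace Pool.Agent.F057

variable {V : Type*} [NormedAddCommGroup V] [NormedSpace ℂ V]
variable {ι : Type*} [Fintype ι] [DecidableEq ι]

theorem dz_smul {u : V → ℂ} {v z : V} (c : ℝ) : dz u (c • v) z = c * dz u v z := by
  unfold dz
  have h1 : fderiv ℝ u z (c • v) = c * fderiv ℝ u z v := by
    rw [map_smul]; simp
  have h2 : fderiv ℝ u z (I • c • v) = c * fderiv ℝ u z (I • v) := by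
    rw [smul_comm I c v, map_smul]; simp
  rw [h1, h2]
  ring

theorem dzbar_smul {u : V → ℂ} {v z : V} (c : ℝ) : dzbar u (c • v) z = c * dzbar u v z := by
  unfold dzbar
  have h1 : fderiv ℝ u z (c • v) = c * fderiv ℝ u z v := by
    rw [map_smul]; simp
  have h2 : fderiv ℝ u z (I • c • v) = c * fderiv ℝ u z (I • v) := by
    rw [smul_comm I c v, map_smul]; simp
  rw [h1, h2]
  ring

theorem dz_const_mul {u : V → ℂ} {v z : V} (hu : DifferentiableAt ℝ u z) (c : ℂ) :
    dz (fun w => c * u w) v z = c * dz u v z := by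
  unfold dz
  have h : fderiv ℝ (fun y => c * u y) z = c • fderiv ℝ u z := fderiv_const_mul hu c
  rw [h]
  simp only [_root_.smul_apply, smul_eq_mul]
  ring

theorem curv_smul {H : V → Matrix ι ι ℂ} {z v : V}
    (hH : ∀ i j, ContDiffAt ℝ 2 (fun w => H w i j) z) (c : ℝ) :
    curv H z (c • v) = ((c ^ 2 : ℝ) : ℂ) • curv H z v := by
  have h1 : (Matrix.of fun i j => dzbar (fun w => H w i j) (c • v) z) =
      (c : ℂ) • (Matrix.of fun i j => dzbar (fun w => H w i j) v z) := by
    ext i j; simp [dzbar_smul]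
  have h2 : (Matrix.of fun i j => dz (fun w => H w i j) (c • v) z) =
      (c : ℂ) • (Matrix.of fun i j => dz (fun w => H w i j) v z) := by
    ext i j; simp [dz_smul]
  have h3 : (Matrix.of fun i j => dz (fun w => dzbar (fun w' => H w' i j) (c • v) w) (c • v) z) =
      ((c ^ 2 : ℝ) : ℂ) •
        (Matrix.of fun i j => dz (fun w => dzbar (fun w' => H w' i j) v w) v z) := by
    ext i j
    simp only [Matrix.of_apply, Matrix.smul_apply, smul_eq_mul]
    rw [dz_smul]
    have : (fun w => dzbar (fun w' => H w' i j) (c • v) w) =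
        fun w => (c : ℂ) * dzbar (fun w' => H w' i j) v w := by
      funext w; exact dzbar_smul c
    rw [this, dz_const_mul (differentiableAt_dzbar (hH i j))]
    push_cast
    ring
  unfold curv
  rw [h1, h2, h3, Matrix.smul_mul, Matrix.smul_mul, Matrix.mul_smul, smul_smul, smul_sub]
  congr 2
  push_cast
  ring

/-- RC-positivity of a Gram matrix function at a point. -/
def RCAt (H : V → Matrix ι ι ℂ) (z : V) : Prop :=
  ∀ x : ι → ℂ, x ≠ 0 → ∃ v : V, 0 < (sq (curv H z v) x x).re

/-- RC-positivity on symmetric tensors. -/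
def RCSymAt (H : V → Matrix ι ι ℂ) (p : ℕ) (z : V) : Prop :=
  ∀ x : (Fin p → ι) → ℂ, x ≠ 0 → (∀ (σ : Equiv.Perm (Fin p)) (a : Fin p → ι), x (a ∘ σ) = x a) →
    ∃ v : V, 0 < (sq (curv (tpow H p) z v) x x).re

/-- Positivity of the mean curvature for some inner product. -/
def MeanAt (H : V → Matrix ι ι ℂ) (z : V) : Prop :=
  ∃ (m : ℕ) (v : Fin m → V), Submodule.span ℂ (Set.range v) = ⊤ ∧
    ∀ x : ι → ℂ, x ≠ 0 → 0 < ∑ j, (sq (curv H z (v j)) x x).re

theorem sq_smul_left (M : Matrix ι ι ℂ) (c : ℂ) (x y : ι → ℂ) :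
    sq M (fun a => c * x a) y = conj c * sq M x y := by
  unfold sq
  rw [Finset.mul_sum]
  refine Finset.sum_congr rfl fun a _ => ?_
  rw [Finset.mul_sum]
  refine Finset.sum_congr rfl fun b _ => ?_
  simp only [map_mul]
  ring

theorem sq_smul_right (M : Matrix ι ι ℂ) (c : ℂ) (x y : ι → ℂ) :
    sq M x (fun a => c * y a) = c * sq M x y := by
  unfold sq
  rw [Finset.mul_sum]
  refine Finset.sum_congr rfl fun a _ => ?_
  rw [Finset.mul_sum]
  refine Finset.sum_congr rfl fun b _ => ?_
  ring

/-- value of a form on the test tensor -/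
theorem sq_test {κ : Type*} [Fintype κ] [DecidableEq κ] (M : Matrix κ κ ℂ) (d : ι → ℝ)
    (hd : ∀ i, 0 ≤ d i) (y : ι → κ → ℂ)
    (hoff : ∀ i j, i ≠ j → sq M (y i) (y j) = 0) :
    sq M (fun a => ∑ i, (Real.sqrt (d i) : ℂ) * y i a) (fun a => ∑ i, (Real.sqrt (d i) : ℂ) * y i a) =
      ∑ i, (d i : ℂ) * sq M (y i) (y i) := by
  rw [sq_sum_left]
  refine Finset.sum_congr rfl fun i _ => ?_
  rw [sq_sum_right, Finset.sum_eq_single i]
  · rw [sq_smul_left, sq_smul_right, Complex.conj_ofReal, ← mul_assoc, ← Complex.ofReal_mul,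
      Real.mul_self_sqrt (hd i)]
  · intro j _ hj
    rw [sq_smul_left, sq_smul_right, hoff i j (Ne.symm hj)]
    simp
  · simp

theorem rc_to_mean [FiniteDimensional ℂ V] {H : V → Matrix ι ι ℂ} {z : V}
    (hH : ∀ i j, ContDiffAt ℝ 2 (fun w => H w i j) z) (pH : (H z).PosDef) {p : ℕ} (hp : 2 ≤ p)
    (h : RCSymAt H p z) : MeanAt H z := by
  classical
  set T : Set (Matrix ι ι ℂ) := {M | ∃ (m : ℕ) (v : Fin m → V), M = ∑ j, curv H z (v j)} with hT
  by_cases hd : Disjoint (SS ι) T
  · exfalso
    obtain ⟨g, hg1, hg2⟩ := exists_functional (T := T) ⟨0, Fin.elim0, by simp⟩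
      (by
        rintro M ⟨m, v, rfl⟩ N ⟨n, w, rfl⟩
        refine ⟨m + n, Fin.append v w, ?_⟩
        rw [Fin.sum_univ_add]
        simp [Fin.append_left, Fin.append_right])
      (by
        rintro c hc M ⟨m, v, rfl⟩
        refine ⟨m, fun j => Real.sqrt c • v j, ?_⟩
        rw [Finset.smul_sum]
        refine Finset.sum_congr rfl fun j _ => ?_
        rw [curv_smul hH, Real.sq_sqrt hc]
        ext a b
        simp) hd
    obtain ⟨E, d, hd0, hE, hgE⟩ := diag_functional hg1 pH
    set y : ι → (Fin p → ι) → ℂ := fun i => pv (fun a => E a i) p with hy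
    have hM : ∀ i j, sq (mpow (H z) p) (y i) (y j) = if i = j then 1 else 0 := by
      intro i j
      rw [hy]
      simp only
      rw [sq_mpow, hE i j]
      split_ifs
      · simp
      · rw [zero_pow (by omega)]
    have hS : ∀ K : Matrix ι ι ℂ, ∀ i j, sq (slot K (H z) p) (y i) (y j) =
        if i = j then p * sq K (fun a => E a i) (fun a => E a i) else 0 := by
      intro K i j
      rw [hy]
      simp only
      rw [sq_slot, hE i j]
      split_ifs with hij
      · subst hij; simp
      · rw [zero_pow (by omega), mul_zero]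
    set x : (Fin p → ι) → ℂ := fun a => ∑ i, (Real.sqrt (d i) : ℂ) * y i a with hx
    have hx0 : x ≠ 0 := by
      intro h0
      have h1 := sq_test (mpow (H z) p) d hd0 y (fun i j hij => by rw [hM, if_neg hij])
      rw [← hx, h0] at h1
      have h2 : sq (mpow (H z) p) 0 0 = 0 := by simp [sq]
      rw [h2] at h1
      simp only [hM, if_true, mul_one] at h1
      have h3 : ∑ i, d i = 0 := by
        have := congrArg Complex.re h1
        simpa using this.symm
      have h4 : ∀ i, d i = 0 := by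
        intro i
        exact (Finset.sum_eq_zero_iff_of_nonneg (fun i _ => hd0 i)).1 h3 i (Finset.mem_univ i)
      have h5 := hg1 1 one_mem_SS
      rw [hgE] at h5
      simp [h4] at h5
    have hxs : ∀ (σ : Equiv.Perm (Fin p)) (a : Fin p → ι), x (a ∘ σ) = x a := by
      intro σ a
      simp only [hx, hy, pv, Function.comp]
      refine Finset.sum_congr rfl fun i _ => ?_
      congr 1
      exact Equiv.prod_comp σ (fun k => E (a k) i)
    obtain ⟨v, hv⟩ := h x hx0 hxs
    rw [curv_tpow hH pH, hx, sq_test (slot (curv H z v) (H z) p) d hd0 y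
      (fun i j hij => by rw [hS, if_neg hij])] at hv
    simp only [hS, if_true] at hv
    have h1 : (∑ i, (d i : ℂ) * ((p : ℂ) * sq (curv H z v) (fun a => E a i) fun a => E a i)).re =
        p * g (curv H z v) := by
      rw [hgE, Complex.re_sum, Finset.mul_sum]
      refine Finset.sum_congr rfl fun i _ => ?_
      rw [Complex.re_ofReal_mul]
      have : ((p : ℂ) * sq (curv H z v) (fun a => E a i) fun a => E a i).re =
          p * (sq (curv H z v) (fun a => E a i) fun a => E a i).re := by
        have := Complex.re_ofReal_mul (p : ℝ) (sq (curv H z v) (fun a => E a i) fun a => E a i)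
        simpa using this
      rw [this]
      ring
    rw [h1] at hv
    have h2 : g (curv H z v) ≤ 0 := hg2 _ ⟨1, fun _ => v, by simp⟩
    have h3 : (p : ℝ) * g (curv H z v) ≤ 0 :=
      mul_nonpos_of_nonneg_of_nonpos (Nat.cast_nonneg p) h2
    linarith
  · rw [Set.not_disjoint_iff] at hd
    obtain ⟨M, hM, m, v, rfl⟩ := hd
    -- add small multiples of a basis
    let b := Module.finBasis ℂ V
    set N : Matrix ι ι ℂ := ∑ i, curv H z (b i) with hN
    have hcont : Continuous fun t : ℝ => (∑ j, curv H z (v j)) + (t : ℂ) • N := by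
      fun_prop
    have hev : ∀ᶠ t : ℝ in nhds (0 : ℝ), (∑ j, curv H z (v j)) + (t : ℂ) • N ∈ SS ι := by
      refine hcont.continuousAt.eventually (isOpen_SS.mem_nhds ?_)
      simpa using hM
    rw [Metric.eventually_nhds_iff] at hev
    obtain ⟨ε, hε, hev⟩ := hev
    set s : ℝ := Real.sqrt (ε / 2) with hs
    have hs0 : 0 < s := Real.sqrt_pos.2 (by linarith)
    have hs2 : s ^ 2 = ε / 2 := Real.sq_sqrt (by linarith)
    refine ⟨m + Module.finrank ℂ V, Fin.append v (fun i => s • b i), ?_, ?_⟩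
    · rw [eq_top_iff, ← b.span_eq, Submodule.span_le]
      rintro _ ⟨i, rfl⟩
      have h1 : Fin.append v (fun i => s • b i) (Fin.natAdd m i) ∈
          Submodule.span ℂ (Set.range (Fin.append v (fun i => s • b i))) :=
        Submodule.subset_span ⟨_, rfl⟩
      rw [Fin.append_right] at h1
      have h2 : ((s⁻¹ : ℝ) : ℂ) • (s • b i) = b i := by
        rw [← Complex.coe_smul s (b i), smul_smul, ← Complex.ofReal_mul, inv_mul_cancel₀ hs0.ne']
        simp
      rw [← h2]
      exact Submodule.smul_mem _ _ h1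
    · intro x hx
      rw [Fin.sum_univ_add]
      simp only [Fin.append_left, Fin.append_right]
      have h1 := hev (y := (s ^ 2 : ℝ)) (by
        rw [hs2, Real.dist_eq, sub_zero, abs_of_pos (by linarith)]; linarith) x hx
      rw [sq_add, sq_smul, sq_sum_mat, hN, sq_sum_mat, Complex.add_re, Complex.re_sum,
        Complex.re_ofReal_mul, Complex.re_sum, Finset.mul_sum] at h1
      refine lt_of_lt_of_eq h1 ?_
      congr 1
      refine Finset.sum_congr rfl fun i _ => ?_
      rw [curv_smul hH, sq_smul, Complex.re_ofReal_mul]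

theorem mean_to_rc {H : V → Matrix ι ι ℂ} {z : V}
    (hH : ∀ i j, ContDiffAt ℝ 2 (fun w => H w i j) z) (pH : (H z).PosDef) (h : MeanAt H z)
    {p : ℕ} (hp : 1 ≤ p) : RCAt (tpow H p) z := by
  obtain ⟨m, v, -, hv⟩ := h
  set K : Matrix ι ι ℂ := ∑ j, curv H z (v j) with hK
  set L : Matrix ι ι ℂ := (1 / 2 : ℂ) • (K + Kᴴ) with hL
  have hre : ∀ {κ : Type _} [Fintype κ] (A : Matrix κ κ ℂ) (x : κ → ℂ),
      (sq ((1 / 2 : ℂ) • (A + Aᴴ)) x x).re = (sq A x x).re := by
    intro κ _ A x
    classical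
    have h1 := sq_conj A x x
    have e : (1 / 2 : ℂ) = ((1 / 2 : ℝ) : ℂ) := by push_cast; rfl
    rw [sq_smul, sq_add, ← h1, e, Complex.re_ofReal_mul, Complex.add_re, Complex.conj_re]
    ring
  have hLh : Lᴴ = L := by
    rw [hL, Matrix.conjTranspose_smul, Matrix.conjTranspose_add, Matrix.conjTranspose_conjTranspose,
      add_comm Kᴴ K]
    congr 1
    simp
  have hLp : L.PosDef := by
    refine Matrix.PosDef.of_dotProduct_mulVec_pos hLh fun x hx => ?_
    have him : (star x ⬝ᵥ (L *ᵥ x)).im = 0 :=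
      Matrix.IsHermitian.im_star_dotProduct_mulVec_self hLh x
    rw [Complex.pos_iff]
    refine ⟨?_, him.symm⟩
    rw [← sq_eq, hL, hre, hK, sq_sum_mat, Complex.re_sum]
    exact hv x hx
  have hsl : slot L (H z) p = (1 / 2 : ℂ) • (slot K (H z) p + (slot K (H z) p)ᴴ) := by
    rw [slot_conjTranspose, pH.isHermitian.eq, ← slot_add, ← slot_smul]
  intro x hx
  have h1 := (slot_posDef hLp pH p hp).dotProduct_mulVec_pos hx
  rw [← sq_eq] at h1
  have h2 := (Complex.pos_iff.1 h1).1
  rw [hsl, hre, hK, slot_sum, sq_sum_mat, Complex.re_sum] at h2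
  by_contra hc
  push Not at hc
  have h3 : ∑ j, (sq (slot (curv H z (v j)) (H z) p) x x).re ≤ 0 := by
    refine Finset.sum_nonpos fun j _ => ?_
    have := hc (v j)
    rwa [curv_tpow hH pH] at this
  linarith

end Pool.Agent.F057
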