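import Pool.Agent.F057.Tensor

open scoped ComplexConjugate ContDiff ComplexOrder
set_option linter.unusedSectionVars false
open Complex

namespace Pool.Agent.F057

variable {ι : Type*} [Fintype ι] [DecidableEq ι]

/-- matrices with positive quadratic form -/
def SS (ι : Type*) [Fintype ι] : Set (Matrix ι ι ℂ) :=
  {M | ∀ x : ι → ℂ, x ≠ 0 → 0 < (sq M x x).re}

theorem sq_smul_vec (M : Matrix ι ι ℂ) (c : ℂ) (x : ι → ℂ) :
    sq M (c • x) (c • x) = (Complex.normSq c : ℂ) * sq M x x := by
  unfold sq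
  rw [Finset.mul_sum]
  refine Finset.sum_congr rfl fun a _ => ?_
  rw [Finset.mul_sum]
  refine Finset.sum_congr rfl fun b _ => ?_
  simp only [Pi.smul_apply, smul_eq_mul, map_mul]
  rw [Complex.normSq_eq_conj_mul_self]
  ring

theorem continuous_sq : Continuous fun q : Matrix ι ι ℂ × (ι → ℂ) => (sq q.1 q.2 q.2).re := by
  unfold sq
  refine Complex.continuous_re.comp ?_
  refine continuous_finsetSum _ fun a _ => continuous_finsetSum _ fun b _ => ?_
  refine (Continuous.mul (Continuous.mul ?_ ?_) ?_)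
  · exact Complex.continuous_conj.comp ((continuous_apply a).comp continuous_snd)
  · exact (continuous_apply b).comp ((continuous_apply a).comp continuous_fst)
  · exact (continuous_apply b).comp continuous_snd

theorem pos_of_sphere {M : Matrix ι ι ℂ}
    (h : ∀ x ∈ Metric.sphere (0 : ι → ℂ) 1, 0 < (sq M x x).re) : M ∈ SS ι := by
  intro x hx
  have hn : 0 < ‖x‖ := norm_pos_iff.2 hx
  have h1 := h ((‖x‖⁻¹ : ℂ) • x) (by
    simp [norm_smul, hn.ne'])
  rw [sq_smul_vec, Complex.re_ofReal_mul] at h1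
  have h2 : 0 < Complex.normSq (‖x‖⁻¹ : ℂ) := by
    rw [Complex.normSq_pos]
    simp [hn.ne']
  exact (mul_pos_iff_of_pos_left h2).1 h1

theorem isOpen_SS : IsOpen (SS ι) := by
  rw [isOpen_iff_mem_nhds]
  intro M hM
  have hK : IsCompact (Metric.sphere (0 : ι → ℂ) 1) := isCompact_sphere 0 1
  have h := hK.eventually_forall_of_forall_eventually (x₀ := M)
    (P := fun M x => 0 < (sq M x x).re) (by
      intro y hy
      have hy0 : y ≠ 0 := by
        rintro rfl
        simp at hy
      have hc := (continuous_sq (ι := ι)).continuousAt (x := (M, y))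
      exact hc.eventually (lt_mem_nhds (hM y hy0)))
  filter_upwards [h] with N hN
  exact pos_of_sphere hN

theorem convex_SS : Convex ℝ (SS ι) := by
  intro M hM N hN a b ha hb hab x hx
  have h1 : sq (a • M + b • N) x x = (a : ℂ) * sq M x x + (b : ℂ) * sq N x x := by
    rw [sq_add]
    have e1 : a • M = (a : ℂ) • M := by ext i j; simp
    have e2 : b • N = (b : ℂ) • N := by ext i j; simp
    rw [e1, e2, sq_smul, sq_smul]
  rw [h1, Complex.add_re, Complex.re_ofReal_mul, Complex.re_ofReal_mul]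
  have p1 := hM x hx
  have p2 := hN x hx
  rcases eq_or_lt_of_le ha with rfl | ha'
  · have : b = 1 := by linarith
    subst this
    simpa using p2
  · have := mul_pos ha' p1
    have := mul_nonneg hb p2.le
    linarith

theorem one_mem_SS : (1 : Matrix ι ι ℂ) ∈ SS ι := by
  intro x hx
  have h1 : (sq (1 : Matrix ι ι ℂ) x x) = ∑ a, (Complex.normSq (x a) : ℂ) := by
    unfold sq
    refine Finset.sum_congr rfl fun a _ => ?_
    rw [Finset.sum_eq_single a]
    · rw [Matrix.one_apply_eq, mul_one, Complex.normSq_eq_conj_mul_self]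
    · intro b _ hb
      rw [Matrix.one_apply_ne (Ne.symm hb)]; simp
    · simp
  rw [h1, Complex.re_sum]
  simp only [Complex.ofReal_re]
  obtain ⟨a, ha⟩ : ∃ a, x a ≠ 0 := by
    by_contra h
    push Not at h
    exact hx (funext h)
  exact Finset.sum_pos' (fun _ _ => Complex.normSq_nonneg _) ⟨a, Finset.mem_univ _, Complex.normSq_pos.2 ha⟩

/-- Separation of a convex cone from the positive matrices. -/
theorem exists_functional {T : Set (Matrix ι ι ℂ)} (h0 : (0 : Matrix ι ι ℂ) ∈ T)
    (hadd : ∀ M ∈ T, ∀ N ∈ T, M + N ∈ T) (hsm : ∀ c : ℝ, 0 ≤ c → ∀ M ∈ T, c • M ∈ T)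
    (hd : Disjoint (SS ι) T) :
    ∃ g : Matrix ι ι ℂ →ₗ[ℝ] ℝ, (∀ M ∈ SS ι, 0 < g M) ∧ ∀ M ∈ T, g M ≤ 0 := by
  have hT : Convex ℝ T := by
    intro M hM N hN a b ha hb _
    exact hadd _ (hsm a ha M hM) _ (hsm b hb N hN)
  obtain ⟨f, u, hf1, hf2⟩ := geometric_hahn_banach_open (E := Matrix ι ι ℂ) convex_SS isOpen_SS hT hd
  have hu : u ≤ 0 := by simpa using hf2 0 h0
  refine ⟨-f.toLinearMap, fun M hM => ?_, fun M hM => ?_⟩
  · have := hf1 M hM
    simp only [LinearMap.neg_apply, ContinuousLinearMap.coe_coe]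
    linarith
  · simp only [LinearMap.neg_apply, ContinuousLinearMap.coe_coe]
    by_contra hc
    push Not at hc
    have hneg : f M < 0 := by linarith
    -- scale
    obtain ⟨n, hn⟩ := exists_nat_gt (u / f M)
    have h1 := hf2 ((n : ℝ) • M) (hsm n (Nat.cast_nonneg n) M hM)
    rw [map_smul, smul_eq_mul] at h1
    have h2 : (n : ℝ) * f M < u := by
      have := mul_lt_mul_of_neg_right hn hneg
      rwa [div_mul_cancel₀ _ hneg.ne] at this
    linarith

theorem rep (g : Matrix ι ι ℂ →ₗ[ℝ] ℝ) :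
    ∃ ρ : Matrix ι ι ℂ, ∀ M, g M = ((M * ρ).trace).re := by
  refine ⟨Matrix.of fun j i => ((g (Matrix.single i j 1) : ℝ) : ℂ) -
    I * ((g (Matrix.single i j I) : ℝ) : ℂ), fun M => ?_⟩
  have h1 : ∀ i j (c : ℂ), g (Matrix.single i j c) =
      c.re * g (Matrix.single i j 1) + c.im * g (Matrix.single i j I) := by
    intro i j c
    have : Matrix.single i j c = c.re • Matrix.single i j (1 : ℂ) + c.im • Matrix.single i j I := by
      rw [Matrix.smul_single, Matrix.smul_single, ← Matrix.single_add]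
      congr 1
      simp [Complex.ext_iff]
    rw [this, map_add, map_smul, map_smul, smul_eq_mul, smul_eq_mul]
  conv_lhs => rw [Matrix.matrix_eq_sum_single M]
  rw [map_sum]
  simp only [map_sum, Matrix.trace, Matrix.diag, Matrix.mul_apply, Matrix.of_apply,
    Complex.re_sum]
  refine Finset.sum_congr rfl fun i _ => Finset.sum_congr rfl fun j _ => ?_
  rw [h1 i j (M i j)]
  simp only [Complex.mul_re, Complex.sub_re, Complex.sub_im, Complex.ofReal_re,
    Complex.ofReal_im, Complex.mul_im, Complex.I_re, Complex.I_im]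
  ring

end Pool.Agent.F057
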