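import Pool.Agent.F057.Core

open scoped ComplexConjugate ContDiff ComplexOrder
set_option linter.unusedSectionVars false
open Complex

namespace Pool.Agent.F057

variable {V : Type*} [NormedAddCommGroup V] [NormedSpace ℂ V]
variable {ι : Type*} [Fintype ι] [DecidableEq ι]

theorem sq_eq {κ : Type*} [Fintype κ] (M : Matrix κ κ ℂ) (x y : κ → ℂ) :
    sq M x y = star x ⬝ᵥ (M.mulVec y) := by
  unfold sq dotProduct Matrix.mulVec dotProduct
  refine Finset.sum_congr rfl fun a _ => ?_
  rw [Finset.mul_sum]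
  refine Finset.sum_congr rfl fun b _ => ?_
  simp [mul_assoc]

theorem sq_add {κ : Type*} [Fintype κ] (M N : Matrix κ κ ℂ) (x y : κ → ℂ) :
    sq (M + N) x y = sq M x y + sq N x y := by
  unfold sq
  rw [← Finset.sum_add_distrib]
  refine Finset.sum_congr rfl fun a _ => ?_
  rw [← Finset.sum_add_distrib]
  refine Finset.sum_congr rfl fun b _ => ?_
  simp; ring

theorem sq_smul {κ : Type*} [Fintype κ] (c : ℂ) (M : Matrix κ κ ℂ) (x y : κ → ℂ) :
    sq (c • M) x y = c * sq M x y := by
  unfold sq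
  rw [Finset.mul_sum]
  refine Finset.sum_congr rfl fun a _ => ?_
  rw [Finset.mul_sum]
  refine Finset.sum_congr rfl fun b _ => ?_
  simp; ring

theorem sq_zero {κ : Type*} [Fintype κ] (x y : κ → ℂ) :
    sq (0 : Matrix κ κ ℂ) x y = 0 := by
  simp [sq]

theorem sq_sum_mat {κ α : Type*} [Fintype κ] (s : Finset α) (M : α → Matrix κ κ ℂ) (x y : κ → ℂ) :
    sq (∑ j ∈ s, M j) x y = ∑ j ∈ s, sq (M j) x y := by
  classical
  induction s using Finset.induction_on with
  | empty => simp [sq_zero]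
  | insert a s ha ih => rw [Finset.sum_insert ha, Finset.sum_insert ha, sq_add, ih]

theorem sq_sum_left {κ α : Type*} [Fintype κ] (s : Finset α) (M : Matrix κ κ ℂ) (x : α → κ → ℂ)
    (y : κ → ℂ) : sq M (fun a => ∑ j ∈ s, x j a) y = ∑ j ∈ s, sq M (x j) y := by
  unfold sq
  rw [Finset.sum_comm' (t' := Finset.univ) (s' := fun _ => s) (by simp)]
  refine Finset.sum_congr rfl fun a _ => ?_
  rw [Finset.sum_comm' (t' := Finset.univ) (s' := fun _ => s) (by simp)]
  refine Finset.sum_congr rfl fun b _ => ?_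
  rw [map_sum, Finset.sum_mul, Finset.sum_mul]

theorem sq_sum_right {κ α : Type*} [Fintype κ] (s : Finset α) (M : Matrix κ κ ℂ) (x : κ → ℂ)
    (y : α → κ → ℂ) : sq M x (fun a => ∑ j ∈ s, y j a) = ∑ j ∈ s, sq M x (y j) := by
  unfold sq
  rw [Finset.sum_comm' (t' := Finset.univ) (s' := fun _ => s) (by simp)]
  refine Finset.sum_congr rfl fun a _ => ?_
  rw [Finset.sum_comm' (t' := Finset.univ) (s' := fun _ => s) (by simp)]
  refine Finset.sum_congr rfl fun b _ => ?_
  rw [Finset.mul_sum]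

/-- matrix tensor power -/
def mpow {ι : Type*} (H : Matrix ι ι ℂ) (p : ℕ) : Matrix (Fin p → ι) (Fin p → ι) ℂ :=
  Matrix.of fun a b => ∏ k, H (a k) (b k)

/-- `K` in one slot, `H` in the others, summed over the slots -/
def slot {ι : Type*} (K H : Matrix ι ι ℂ) : (p : ℕ) → Matrix (Fin p → ι) (Fin p → ι) ℂ
  | 0 => 0
  | p + 1 => Matrix.of fun a b => K (a 0) (b 0) * mpow H p (Fin.tail a) (Fin.tail b)
      + H (a 0) (b 0) * slot K H p (Fin.tail a) (Fin.tail b)

/-- the equivalence used in inductions -/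
def eqv (ι : Type*) (p : ℕ) : (Fin (p + 1) → ι) ≃ ι × (Fin p → ι) :=
  (Fin.consEquiv (fun _ : Fin (p + 1) => ι)).symm

theorem eqv_fst (p : ℕ) (a : Fin (p + 1) → ι) : (eqv ι p a).1 = a 0 := rfl
theorem eqv_snd (p : ℕ) (a : Fin (p + 1) → ι) : (eqv ι p a).2 = Fin.tail a := rfl

theorem mpow_succ (H : Matrix ι ι ℂ) (p : ℕ) (a b : Fin (p + 1) → ι) :
    mpow H (p + 1) a b = H (a 0) (b 0) * mpow H p (Fin.tail a) (Fin.tail b) := by
  simp only [mpow, Matrix.of_apply, Fin.prod_univ_succ, Fin.tail]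

theorem mpow_succ' (H : Matrix ι ι ℂ) (p : ℕ) :
    mpow H (p + 1) = (Matrix.kronecker H (mpow H p)).submatrix (eqv ι p) (eqv ι p) := by
  ext a b
  rw [mpow_succ]
  rfl

theorem slot_succ' (K H : Matrix ι ι ℂ) (p : ℕ) :
    slot K H (p + 1) = (Matrix.kronecker K (mpow H p)).submatrix (eqv ι p) (eqv ι p)
      + (Matrix.kronecker H (slot K H p)).submatrix (eqv ι p) (eqv ι p) := by
  ext a b
  rfl

theorem mpow_posDef {H : Matrix ι ι ℂ} (hH : H.PosDef) (p : ℕ) : (mpow H p).PosDef := by
  induction p with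
  | zero =>
    have : mpow H 0 = 1 := by
      ext a b
      have : a = b := Subsingleton.elim _ _
      subst this
      simp [mpow]
    rw [this]
    exact Matrix.PosDef.one
  | succ p ih =>
    rw [mpow_succ']
    exact (hH.kronecker ih).submatrix (eqv ι p).injective

theorem slot_posSemidef {K H : Matrix ι ι ℂ} (hK : K.PosDef) (hH : H.PosDef) (p : ℕ) :
    (slot K H p).PosSemidef := by
  induction p with
  | zero => exact Matrix.PosSemidef.zero
  | succ p ih =>
    rw [slot_succ']
    exact ((hK.posSemidef.kronecker (mpow_posDef hH p).posSemidef).submatrix _).add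
      ((hH.posSemidef.kronecker ih).submatrix _)

theorem slot_posDef {K H : Matrix ι ι ℂ} (hK : K.PosDef) (hH : H.PosDef) (p : ℕ) (hp : 1 ≤ p) :
    (slot K H p).PosDef := by
  obtain ⟨p, rfl⟩ : ∃ k, p = k + 1 := ⟨p - 1, by omega⟩
  rw [slot_succ']
  exact ((hK.kronecker (mpow_posDef hH p)).submatrix (eqv ι p).injective).add_posSemidef
    ((hH.posSemidef.kronecker (slot_posSemidef hK hH p)).submatrix _)

theorem slot_add (K L H : Matrix ι ι ℂ) (p : ℕ) :
    slot (K + L) H p = slot K H p + slot L H p := by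
  induction p with
  | zero => simp [slot]
  | succ p ih =>
    ext a b
    simp only [slot, Matrix.of_apply, ih, Matrix.add_apply]
    ring

theorem slot_smul (c : ℂ) (K H : Matrix ι ι ℂ) (p : ℕ) :
    slot (c • K) H p = c • slot K H p := by
  induction p with
  | zero => simp [slot]
  | succ p ih =>
    ext a b
    simp only [slot, Matrix.of_apply, ih, Matrix.smul_apply, smul_eq_mul]
    ring

theorem slot_zero (H : Matrix ι ι ℂ) (p : ℕ) : slot 0 H p = 0 := by
  have := slot_smul 0 0 H p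
  simpa using this

theorem slot_sum {α : Type*} (s : Finset α) (K : α → Matrix ι ι ℂ) (H : Matrix ι ι ℂ) (p : ℕ) :
    slot (∑ j ∈ s, K j) H p = ∑ j ∈ s, slot (K j) H p := by
  classical
  induction s using Finset.induction_on with
  | empty => simp [slot_zero]
  | insert a s ha ih => rw [Finset.sum_insert ha, Finset.sum_insert ha, slot_add, ih]

theorem mpow_conjTranspose (H : Matrix ι ι ℂ) (p : ℕ) :
    (mpow H p).conjTranspose = mpow H.conjTranspose p := by
  ext a b
  simp [mpow, Matrix.conjTranspose_apply]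

theorem slot_conjTranspose (K H : Matrix ι ι ℂ) (p : ℕ) :
    (slot K H p).conjTranspose = slot K.conjTranspose H.conjTranspose p := by
  induction p with
  | zero => simp [slot]
  | succ p ih =>
    ext a b
    have h1 := congrFun (congrFun ih (Fin.tail a)) (Fin.tail b)
    have h2 := congrFun (congrFun (mpow_conjTranspose H p) (Fin.tail a)) (Fin.tail b)
    simp only [Matrix.conjTranspose_apply] at h1 h2
    simp only [slot, Matrix.of_apply, Matrix.conjTranspose_apply, star_add, star_mul', h1, h2]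

/-- The curvature of a tensor power. -/
theorem curv_tpow {H : V → Matrix ι ι ℂ} {z v : V}
    (hH : ∀ i j, ContDiffAt ℝ 2 (fun w => H w i j) z) (pH : (H z).PosDef) (p : ℕ) :
    curv (tpow H p) z v = slot (curv H z v) (H z) p := by
  induction p with
  | zero =>
    have h1 : ∀ (a b : Fin 0 → ι), (fun w : V => tpow H 0 w a b) = fun _ => 1 := by
      intro a b; funext w; simp [tpow]
    ext a b
    simp only [curv, slot, h1]
    simp [dz, dzbar, Matrix.mul_apply]
  | succ p ih =>
    have hK : ∀ i j, ContDiffAt ℝ 2 (fun w => tpow H p w i j) z := by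
      intro i j
      simp only [tpow, Matrix.of_apply]
      exact contDiffAt_prod fun k _ => hH _ _
    have uK : IsUnit (tpow H p z) := (mpow_posDef pH p).isUnit
    ext a b
    rw [curv_mul (eqv ι p) (H := H) (K := tpow H p) (G := tpow H (p + 1))
      (fun w x y => mpow_succ (H w) p x y) hH hK pH.isUnit uK a b, ih]
    rfl

/-- product vectors -/
def pv {ι : Type*} (x : ι → ℂ) (p : ℕ) : (Fin p → ι) → ℂ := fun a => ∏ k, x (a k)

theorem pv_succ (x : ι → ℂ) (p : ℕ) (a : Fin (p + 1) → ι) :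
    pv x (p + 1) a = x (a 0) * pv x p (Fin.tail a) := by
  simp only [pv, Fin.prod_univ_succ, Fin.tail]

theorem sq_kron {κ μ : Type*} [Fintype κ] [Fintype μ] (e : κ ≃ ι × μ) (M : Matrix κ κ ℂ)
    (A : Matrix ι ι ℂ) (B : Matrix μ μ ℂ) (hM : ∀ a b, M a b = A (e a).1 (e b).1 * B (e a).2 (e b).2)
    (X Y : κ → ℂ) (x y : ι → ℂ) (s t : μ → ℂ) (hX : ∀ a, X a = x (e a).1 * s (e a).2)
    (hY : ∀ a, Y a = y (e a).1 * t (e a).2) :
    sq M X Y = sq A x y * sq B s t := by
  have h1 : sq M X Y = ∑ a : ι × μ, ∑ b : ι × μ,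
      (conj (x a.1) * A a.1 b.1 * y b.1) * (conj (s a.2) * B a.2 b.2 * t b.2) := by
    unfold sq
    refine Fintype.sum_equiv e _ _ fun a => ?_
    refine Fintype.sum_equiv e _ _ fun b => ?_
    rw [hM, hX, hY, map_mul]
    ring
  rw [h1]
  simp only [sq, Fintype.sum_prod_type]
  rw [Finset.sum_mul]
  refine Finset.sum_congr rfl fun a _ => ?_
  rw [Finset.mul_sum]
  refine Finset.sum_congr rfl fun c _ => ?_
  rw [Finset.sum_mul]
  refine Finset.sum_congr rfl fun b _ => ?_
  rw [Finset.mul_sum]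

theorem sq_mpow (H : Matrix ι ι ℂ) (x y : ι → ℂ) (p : ℕ) :
    sq (mpow H p) (pv x p) (pv y p) = (sq H x y) ^ p := by
  induction p with
  | zero => simp [sq, mpow, pv]
  | succ p ih =>
    rw [sq_kron (eqv ι p) (mpow H (p + 1)) H (mpow H p) (fun a b => mpow_succ H p a b)
      _ _ x y (pv x p) (pv y p) (fun a => pv_succ x p a) (fun a => pv_succ y p a), ih]
    ring

theorem sq_slot (K H : Matrix ι ι ℂ) (x y : ι → ℂ) (p : ℕ) :
    sq (slot K H p) (pv x p) (pv y p) = p * sq K x y * (sq H x y) ^ (p - 1) := by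
  induction p with
  | zero => simp [slot, sq_zero]
  | succ p ih =>
    rw [slot_succ', sq_add]
    rw [sq_kron (eqv ι p) ((K.kronecker (mpow H p)).submatrix (eqv ι p) (eqv ι p)) K (mpow H p)
      (fun a b => rfl) _ _ x y (pv x p) (pv y p) (fun a => pv_succ x p a) (fun a => pv_succ y p a)]
    rw [sq_kron (eqv ι p) ((H.kronecker (slot K H p)).submatrix (eqv ι p) (eqv ι p)) H
      (slot K H p) (fun a b => rfl) _ _ x y (pv x p) (pv y p) (fun a => pv_succ x p a) (fun a => pv_succ y p a), ih, sq_mpow]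
    rcases Nat.eq_zero_or_pos p with rfl | hp
    · simp
    · obtain ⟨k, rfl⟩ : ∃ k, p = k + 1 := ⟨p - 1, by omega⟩
      simp only [Nat.add_sub_cancel]
      push_cast
      ring

end Pool.Agent.F057
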